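import Pool.Agent.Lib_MP_c56c8e_an.Main

/-!
# MP_c56c8e_an: restricted projections onto tangent hyperplanes of the sphere

Full (positive) answer to Q1.  For every `n ≥ 4`, every analytic `Z ⊆ ℝⁿ` and every
`(n-2)`-dimensional `C²` submanifold `S` of the unit sphere `S^{n-1}` all of whose sectional
curvatures are `> 1`, the orthogonal projection of `Z` to the tangent hyperplane
`T_x S^{n-1} = x^⊥` has Hausdorff dimension `min (dim Z) (n-1)` for `H^{n-2}`-almost every
`x ∈ S`.

The definitions (local `C²` parametrizations, `C²` submanifold, second fundamental form and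
sectional curvature by the Gauss formula) are in `Pool/Agent/Lib_MP_c56c8e_an/Defs.lean`.

Idea of the proof.  The curvature condition makes the second fundamental form of `S` in the
sphere definite.  As `dim S = n - 2 ≥ 2`, this gives the tube estimate
`H^{n-2} {x ∈ S' : |⟨x, e⟩| < δ} ≤ C δ`, uniformly in the unit vector `e`, for small pieces `S'`
of `S`.  Averaging Gaussians over `S'` on the Fourier side turns the tube estimate into the
inequality `∫_{S'} I_s(π_x μ) dx ≤ C I_s(μ)` between Riesz energies for all `0 < s < n - 1`.
The energy form of Frostman's lemma for analytic sets is proved from scratch (a capacity on the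
binary tree, its capacitability for analytic sets, and a max-flow type argument).
-/

namespace Pool.Agent.Results.MP_c56c8e_an.Hyperplanes

open MeasureTheory Set Metric
open Pool.Agent.Lib_MP_c56c8e_an
open scoped ENNReal

theorem result (n : ℕ) (hn : 4 ≤ n) (Z : Set (EuclideanSpace ℝ (Fin n))) (hZ : AnalyticSet Z)
    (S : Set (EuclideanSpace ℝ (Fin n))) (hS : S ⊆ sphere 0 1)
    (hM : IsC2Submanifold (n - 2) S) (hK : SecCurvGt (n - 2) S 1) :
    μH[((n - 2 : ℕ) : ℝ)] {x | x ∈ S ∧ dimProj (perp x) Z ≠
      min (dimH Z) ((n - 1 : ℕ) : ℝ≥0∞)} = 0 :=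
  main n hn Z hZ S hS hM hK

end Pool.Agent.Results.MP_c56c8e_an.Hyperplanes
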